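import Pool.Agent.W541.DL.Stm

/-!
Project DL, part VAR (helper205): variance of the statistic.
-/

namespace Pool.Agent.W205.DL.VAR

open MeasureTheory ProbabilityTheory Filter Topology Pool.Agent.W541.DL

/-- the sum over one strip -/
noncomputable def strip (f : R4 → ℝ) (A x0 t0 ρ : ℝ) (m j : ℕ) : ℝ :=
  ∑ i ∈ Finset.range (nI ρ m), cl A (m ^ 3 * cellv f x0 t0 m i j)

theorem continuous_cl (A : ℝ) : Continuous (cl A) := by
  unfold cl
  exact continuous_const.max (continuous_const.min continuous_id)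

theorem abs_cl_le {A : ℝ} (hA : 0 < A) (v : ℝ) : |cl A v| ≤ A := by
  unfold cl
  rw [abs_le]
  constructor
  · exact le_max_left _ _
  · exact max_le (by linarith) (min_le_left _ _)

theorem lt_step (t0 : ℝ) {m : ℕ} (hm : 1 ≤ m) (j : ℕ) :
    t0 + (j : ℝ) / (m : ℝ) ^ 9 < t0 + ((j : ℝ) + 1) / (m : ℝ) ^ 9 := by
  have h1 : (0 : ℝ) < (m : ℝ) ^ 9 := by
    have : (0 : ℝ) < m := by exact_mod_cast hm
    positivity
  have : (j : ℝ) / (m : ℝ) ^ 9 < ((j : ℝ) + 1) / (m : ℝ) ^ 9 := by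
    gcongr
    linarith
  linarith

/-- the point of a cell -/
noncomputable def pt (x0 t0 : ℝ) {m : ℕ} (hm : 1 ≤ m) (i j : ℕ) : R4 :=
  ⟨((x0 + 3 * i / (m : ℝ) ^ 5, t0 + j / (m : ℝ) ^ 9),
    (x0 + 3 * i / (m : ℝ) ^ 5, t0 + (j + 1) / (m : ℝ) ^ 9)), lt_step t0 hm j⟩

theorem cellv_eq (f : R4 → ℝ) (x0 t0 : ℝ) {m : ℕ} (hm : 1 ≤ m) (i j : ℕ) :
    cellv f x0 t0 m i j = f (pt x0 t0 hm i j) := by
  unfold cellv val
  rw [dif_pos (lt_step t0 hm j)]
  rfl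

theorem measurable_strip {Ω : Type} (F : MeasurableSpace Ω) (L : Ω → C(R4, ℝ)) (A x0 t0 ρ : ℝ)
    {m : ℕ} (hm : 1 ≤ m) (j : ℕ)
    (h : ∀ i, Measurable[F] (fun ω => L ω (pt x0 t0 hm i j))) :
    Measurable[F] (fun ω => strip (L ω) A x0 t0 ρ m j) := by
  unfold strip
  refine Finset.measurable_fun_sum _ (fun i _ => ?_)
  have e : (fun ω => cl A ((m : ℝ) ^ 3 * cellv (L ω) x0 t0 m i j)) =
      fun ω => cl A ((m : ℝ) ^ 3 * L ω (pt x0 t0 hm i j)) := by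
    funext ω
    rw [cellv_eq _ x0 t0 hm i j]
  rw [e]
  exact (continuous_cl A).measurable.comp ((h i).const_mul _)

theorem measurable_sig {Ω : Type} (L : Ω → C(R4, ℝ)) (x0 t0 : ℝ)
    {m : ℕ} (hm : 1 ≤ m) (i j : ℕ) :
    Measurable[sig L (t0 + j / (m : ℝ) ^ 9) (t0 + (j + 1) / (m : ℝ) ^ 9)]
      (fun ω => L ω (pt x0 t0 hm i j)) := by
  refine measurable_iff_comap_le.2 ?_
  exact le_iSup (fun p : {p : R4 // t0 + (j : ℝ) / (m : ℝ) ^ 9 ≤ p.1.1.2 ∧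
    p.1.2.2 ≤ t0 + ((j : ℝ) + 1) / (m : ℝ) ^ 9} =>
      MeasurableSpace.comap (fun ω => L ω p.1) inferInstance)
    ⟨pt x0 t0 hm i j, le_refl _, le_refl _⟩

theorem indep_lt {Ω : Type} [MeasurableSpace Ω] {P : Measure Ω} {L : Ω → C(R4, ℝ)}
    (hL : IsDirectedLandscape P L) (t0 : ℝ) {m : ℕ} (hm : 1 ≤ m) {j k : ℕ} (hjk : j < k) :
    Indep (sig L (t0 + j / (m : ℝ) ^ 9) (t0 + (j + 1) / (m : ℝ) ^ 9))
      (sig L (t0 + k / (m : ℝ) ^ 9) (t0 + (k + 1) / (m : ℝ) ^ 9)) P := by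
  have h1 : (0 : ℝ) < (m : ℝ) ^ 9 := by
    have : (0 : ℝ) < m := by exact_mod_cast hm
    positivity
  have h := hL.indep 2 ![t0 + j / (m : ℝ) ^ 9, t0 + k / (m : ℝ) ^ 9]
    ![t0 + (j + 1) / (m : ℝ) ^ 9, t0 + (k + 1) / (m : ℝ) ^ 9] (by
      intro a b hab
      fin_cases a <;> fin_cases b <;> simp at hab ⊢
      gcongr
      exact_mod_cast hjk)
  exact h.indep (i := 0) (j := 1) (by decide)

theorem main (hS : S_STRIP) : S_VAR := by
  intro Ω _ P L hL A hA x0 t0 ρ hρ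
  have := hL.prob
  obtain ⟨C, hC, hev⟩ := hS Ω P L hL A hA x0 t0 ρ hρ
  refine ⟨ρ * C, mul_pos hρ hC, ?_⟩
  filter_upwards [hev, eventually_ge_atTop 1] with m hm1 hm
  have hmeas : ∀ j, Measurable (fun ω => strip (L ω) A x0 t0 ρ m j) := fun j =>
    measurable_strip _ L A x0 t0 ρ hm j (fun i => hL.meas _)
  have hbd : ∀ j ω, ‖strip (L ω) A x0 t0 ρ m j‖ ≤ nI ρ m * A := by
    intro j ω
    rw [Real.norm_eq_abs]
    unfold strip
    refine (Finset.abs_sum_le_sum_abs _ _).trans ?_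
    calc ∑ i ∈ Finset.range (nI ρ m), |cl A ((m : ℝ) ^ 3 * cellv (L ω) x0 t0 m i j)|
        ≤ ∑ i ∈ Finset.range (nI ρ m), A := Finset.sum_le_sum (fun i _ => abs_cl_le hA _)
      _ = nI ρ m * A := by simp
  have hLp : ∀ j ∈ Finset.range (nJ ρ m), MemLp (fun ω => strip (L ω) A x0 t0 ρ m j) 2 P :=
    fun j _ => MemLp.of_bound (hmeas j).aestronglyMeasurable (nI ρ m * A)
      (Filter.Eventually.of_forall (hbd j))
  have hind : Set.Pairwise (↑(Finset.range (nJ ρ m)) : Set ℕ)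
      (fun i j => IndepFun (fun ω => strip (L ω) A x0 t0 ρ m i)
        (fun ω => strip (L ω) A x0 t0 ρ m j) P) := by
    have aux : ∀ j k : ℕ, j < k → IndepFun (fun ω => strip (L ω) A x0 t0 ρ m j)
        (fun ω => strip (L ω) A x0 t0 ρ m k) P := by
      intro j k hjk
      rw [IndepFun_iff_Indep]
      refine indep_of_indep_of_le_left (indep_of_indep_of_le_right (indep_lt hL t0 hm hjk) ?_) ?_
      · exact measurable_iff_comap_le.1 (measurable_strip _ L A x0 t0 ρ hm k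
          (fun i => measurable_sig L x0 t0 hm i k))
      · exact measurable_iff_comap_le.1 (measurable_strip _ L A x0 t0 ρ hm j
          (fun i => measurable_sig L x0 t0 hm i j))
    intro j _ k _ hjk
    rcases lt_or_gt_of_ne hjk with h | h
    · exact aux j k h
    · exact (aux k j h).symm
  have e1 : (fun ω => stat (L ω) A x0 t0 ρ m) =
      ∑ j ∈ Finset.range (nJ ρ m), fun ω => strip (L ω) A x0 t0 ρ m j := by
    funext ω
    rw [Finset.sum_apply]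
    rfl
  rw [e1, IndepFun.variance_sum hLp hind]
  have hm0 : (0 : ℝ) ≤ (m : ℝ) ^ 9 := by positivity
  calc ∑ j ∈ Finset.range (nJ ρ m), Var[fun ω => strip (L ω) A x0 t0 ρ m j; P]
      ≤ ∑ j ∈ Finset.range (nJ ρ m), C * (m : ℝ) ^ 5 := Finset.sum_le_sum (fun j _ => hm1 j)
    _ = (nJ ρ m : ℝ) * (C * (m : ℝ) ^ 5) := by simp
    _ ≤ (ρ * (m : ℝ) ^ 9) * (C * (m : ℝ) ^ 5) := by
        have : (nJ ρ m : ℝ) ≤ ρ * (m : ℝ) ^ 9 := Nat.floor_le (by positivity)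
        have h5 : (0 : ℝ) ≤ C * (m : ℝ) ^ 5 := by positivity
        exact mul_le_mul_of_nonneg_right this h5
    _ = ρ * C * (m : ℝ) ^ 14 := by ring

end Pool.Agent.W205.DL.VAR
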